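import Pool.Agent.helper40.SN.SpecD

/-!
# sn: dLIP, local Lipschitz bound of a bounded convex function (helper18)
-/

open scoped Pointwise ContDiff
open MeasureTheory Set Filter Topology Pool.Agent.helper83.SC Pool.Agent.helper69.SN

namespace Pool.Agent.helper40.SN

theorem dLIP_one {m : ℕ} (f : E m → ℝ) (hf : CV f) (R s L : ℝ) (hs : 0 < s)
    (hL : ∀ x, ‖x‖ ≤ R + s → |f x| ≤ L) (x y : E m) (hx : ‖x‖ ≤ R) (hy : ‖y‖ ≤ R) :
    f y - f x ≤ 2 * L / s * ‖x - y‖ := by
  have hL0 : 0 ≤ L := (abs_nonneg (f x)).trans (hL x (by linarith))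
  rcases eq_or_ne x y with h | h
  · subst h
    simp
  have hd : 0 < ‖y - x‖ := by
    rw [norm_pos_iff]
    exact sub_ne_zero.2 h.symm
  set d : ℝ := ‖y - x‖ with hd_def
  set z : E m := y + (s / d) • (y - x) with hz_def
  have hz : ‖z‖ ≤ R + s := by
    calc ‖z‖ ≤ ‖y‖ + ‖(s / d) • (y - x)‖ := norm_add_le _ _
      _ = ‖y‖ + s := by
        rw [norm_smul, Real.norm_of_nonneg (by positivity), ← hd_def]
        congr 1
        field_simp
      _ ≤ R + s := by linarith
  have hds : 0 < d + s := by linarith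
  have h1 : (1 - d / (d + s)) • x + (d / (d + s)) • z = y := by
    have h2 : z = x + ((d + s) / d) • (y - x) := by
      rw [hz_def]
      have h3 : (d + s) / d = 1 + s / d := by
        field_simp
      rw [h3, add_smul, one_smul]
      abel
    rw [h2, smul_add, smul_smul]
    have h4 : d / (d + s) * ((d + s) / d) = 1 := by
      field_simp
    rw [h4, one_smul, sub_smul, one_smul]
    abel
  have ht0 : 0 ≤ d / (d + s) := by positivity
  have ht1 : d / (d + s) ≤ 1 := by
    rw [div_le_one hds]
    linarith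
  have h5 := hf.2 (mem_univ x) (mem_univ z) (by linarith : (0 : ℝ) ≤ 1 - d / (d + s)) ht0 (by ring)
  rw [h1] at h5
  simp only [smul_eq_mul] at h5
  have h6 : f z - f x ≤ 2 * L := by
    have h7 := (abs_le.1 (hL z hz)).2
    have h8 := (abs_le.1 (hL x (by linarith))).1
    linarith
  have h9 : f y - f x ≤ d / (d + s) * (2 * L) := by
    nlinarith
  have h10 : d / (d + s) ≤ d / s := by
    apply div_le_div_of_nonneg_left hd.le hs
    linarith
  calc f y - f x ≤ d / (d + s) * (2 * L) := h9
    _ ≤ d / s * (2 * L) := by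
      apply mul_le_mul_of_nonneg_right h10
      linarith
    _ = 2 * L / s * ‖x - y‖ := by
      rw [norm_sub_rev x y, ← hd_def]
      ring

theorem dLIP : dLIP_stmt := by
  intro m f hf R s L hs hL x y hx hy
  rw [abs_le]
  constructor
  · have h := dLIP_one f hf R s L hs hL x y hx hy
    linarith
  · have h := dLIP_one f hf R s L hs hL y x hy hx
    rw [norm_sub_rev y x] at h
    exact h

end Pool.Agent.helper40.SN

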